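import Pool.Agent.N12.PH.Cnt

set_option autoImplicit false

/-!
# MP_56b8f5_nt: the shifted moments of zeta over the values of functions at the primes

Let `f t = ∑ a_x t ^ x` be a generalised polynomial (finitely many real exponents `x`) whose largest exponent `c > 0` is not
an integer, with `a_c > 0`; for instance `f t = α t ^ (3 / 2)`. Consider the normalised shifted `2k`-th moments of zeta
(`k = 4`: the eighth moment)
`(log T) ^ (-k ^ 2) · mean of ζ(1/2 + iv/log T + it) ^ k ζ(1/2 + iv/log T - it) ^ k` over the heights `t = f p + β` in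
`[T, 2T]`, where `p` runs over the PRIMES `u < p ≤ v` of a residue class. For EVERY such `f`, every `k ≥ 1`, uniformly in `β`,
in the modulus, the residue class and the interval, as long as there are at least `u ^ (1 - κ)` such primes, tested against
functions of `v` whose Fourier transform is supported near the lower edge of the spectrum, this sparse shifted moment has the
limit predicted by the unitary matrix integrals, with the exact arithmetic factor `a_k`.

Proof. Vaughan's identity and van der Corput's method give a power saving for the sums of `e(θ f(p) + β p)` over the primes of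
an interval, uniformly for all REAL frequencies `u ^ (-η) ≤ θ ≤ u ^ η` and all `β`, in particular for
`θ = log (m / n) / (2 π)` (`Pool.Agent.N12.PH`, adapted from the starting library `Pool.Agent.Y961.JR`, where the frequencies
are integers over integers). Then the limit theorem for the shifted moments of zeta over sparse sets of heights with small
character sums of helper461 (`Pool.Agent.R461.HM`) can be applied.
-/

namespace Pool.Agent.Results.MP_56b8f5_nt.ShiftedMomentsAtPrimes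

open Complex MeasureTheory
open scoped ContDiff
open Pool.Agent.N12.MH.Gp (gp)
open Pool.Agent.N12.PH (pset Win)

noncomputable section

/-- the arithmetic factor `a_k` -/
def arithmeticFactor (k : ℕ) : ℝ :=
  ∏' p : Nat.Primes, ((1 - 1 / (p : ℝ)) ^ (k ^ 2) *
    ∑' m : ℕ, ((m + k - 1).choose m : ℝ) ^ 2 * (1 / (p : ℝ)) ^ m)

/-- `φ(v) = ∫ ψ(ξ) e^{iξv} dξ` -/
def phi (ψ : ℝ → ℂ) (v : ℝ) : ℂ := ∫ ξ : ℝ, ψ ξ * exp (I * ξ * v)

/-- the normalised shifted moment over the heights `f p + β`, `p` prime, `u < p ≤ u'`, `p ≡ r` modulo `d`, with the shift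
`v / log T` -/
def shifted (k : ℕ) (f : ℝ → ℝ) (β T : ℝ) (u u' d r : ℕ) (v : ℝ) : ℂ :=
  ((Real.log T : ℂ) ^ (k ^ 2))⁻¹ * (((pset u u' d r).card : ℂ)⁻¹ * ∑ p ∈ pset u u' d r,
    riemannZeta (1 / 2 + I * v / Real.log T + I * ((f p + β : ℝ) : ℂ)) ^ k *
      riemannZeta (1 / 2 + I * v / Real.log T - I * ((f p + β : ℝ) : ℂ)) ^ k)

/-- the integral of `φ(v)` times the normalised shifted moment differs by at most `δ` from
`2 π a_k ∫_0^∞ u ^ (k ^ 2 - 1) / (k ^ 2 - 1)! ψ(2 u) du` -/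
def Close (k : ℕ) (ψ : ℝ → ℂ) (δ : ℝ) (f : ℝ → ℝ) (β T : ℝ) (u u' d r : ℕ) : Prop :=
  Integrable (fun v : ℝ => phi ψ v * shifted k f β T u u' d r v) ∧
    ‖(∫ v : ℝ, phi ψ v * shifted k f β T u u' d r v) - 2 * Real.pi * arithmeticFactor k *
      ∫ u in Set.Ioi (0:ℝ), (u : ℂ) ^ (k ^ 2 - 1) / (k ^ 2 - 1).factorial * ψ (2 * u)‖ ≤ δ

lemma phi_eq (ψ : ℝ → ℂ) (v : ℝ) : phi ψ v = W182.KO.P ψ (v * I) := by
  unfold phi W182.KO.P
  congr 1; funext ξ
  congr 2
  ring

/-- **The shifted moments of zeta over heights at primes.** Let `c > 0` not be an integer.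

(1) Let `f = ∑ a_x t ^ x` be a generalised polynomial of order `c`. There are `κ > 0` and `η > 0` such that for all `k ≥ 1`,
all `D > 0` and all smooth `ψ` with compact support which vanish above `η / D`: the integral of `φ(v)` times the normalised
shifted moment over the heights `f p + β`, `p` prime, `u < p ≤ u'`, `p ≡ r` modulo `d`, tends to
`2 π a_k ∫_0^∞ u ^ (k ^ 2 - 1) / (k ^ 2 - 1)! ψ(2 u) du` for `T → ∞`, uniformly in `u`, `u' ≤ 2 u`, `T ≤ u ^ D`, `d ≥ 1`, `r`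
and `β` such that there are at least `u ^ (1 - κ)` such primes and all `f p + β` are in `[T, 2T]`.

(2) For all `α > 0` there is `η > 0` such that for all `k ≥ 1`, all smooth `ψ` with compact support which vanish above `η`,
all coprime `r`, `d` and `0 < ε ≤ 1` the same holds for the heights `α p ^ c`, `p` prime, `u < p ≤ u'`, `p ≡ r` modulo `d`,
for `u → ∞`, uniformly in `(1 + ε) u ≤ u' ≤ 2 u` and `T` with `T ≤ α u ^ c`, `α u' ^ c ≤ 2 T`. -/
theorem result (c : ℝ) (hc : 0 < c) (hcn : ∀ m : ℕ, c ≠ m) :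
    (∀ (F : Finset ℝ) (a : ℝ → ℝ), c ∈ F → (∀ x ∈ F, x ≤ c) → 0 < a c →
      ∃ κ η : ℝ, 0 < κ ∧ 0 < η ∧ ∀ k : ℕ, 1 ≤ k → ∀ D : ℝ, 0 < D →
        ∀ ψ : ℝ → ℂ, ContDiff ℝ ∞ ψ → HasCompactSupport ψ → (∀ ξ : ℝ, η / D < ξ → ψ ξ = 0) →
          ∀ δ : ℝ, 0 < δ → ∃ T₀ : ℝ, ∀ T : ℝ, T₀ ≤ T → ∀ (u u' d r : ℕ) (β : ℝ), Win (gp F a) κ D β T u u' d r →
            Close k ψ δ (gp F a) β T u u' d r) ∧
    (∀ α : ℝ, 0 < α → ∃ η : ℝ, 0 < η ∧ ∀ k : ℕ, 1 ≤ k →
      ∀ ψ : ℝ → ℂ, ContDiff ℝ ∞ ψ → HasCompactSupport ψ → (∀ ξ : ℝ, η < ξ → ψ ξ = 0) →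
        ∀ d r : ℕ, 0 < d → r.Coprime d → ∀ ε : ℝ, 0 < ε → ε ≤ 1 → ∀ δ : ℝ, 0 < δ →
          ∃ u₀ : ℕ, ∀ u u' : ℕ, u₀ ≤ u → (1 + ε) * u ≤ u' → u' ≤ 2 * u → ∀ T : ℝ, T ≤ α * (u : ℝ) ^ c →
            α * (u' : ℝ) ^ c ≤ 2 * T → Close k ψ δ (fun t => α * t ^ c) 0 T u u' d r) := by
  have main : ∀ (F : Finset ℝ) (a : ℝ → ℝ), c ∈ F → (∀ x ∈ F, x ≤ c) → 0 < a c →
      ∃ κ η : ℝ, 0 < κ ∧ 0 < η ∧ ∀ k : ℕ, 1 ≤ k → ∀ D : ℝ, 0 < D →
        ∀ ψ : ℝ → ℂ, ContDiff ℝ ∞ ψ → HasCompactSupport ψ → (∀ ξ : ℝ, η / D < ξ → ψ ξ = 0) →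
          ∀ δ : ℝ, 0 < δ → ∃ T₀ : ℝ, ∀ T : ℝ, T₀ ≤ T → ∀ (u u' d r : ℕ) (β : ℝ), Win (gp F a) κ D β T u u' d r →
            Close k ψ δ (gp F a) β T u u' d r := by
    intro F a hcF hmax hac
    obtain ⟨η, hη, H⟩ := Pool.Agent.N12.PH.prime_heights F a c hc hcn hcF hmax hac
    refine ⟨η / 2, η / 4, by positivity, by positivity, fun k hk D hD ψ hψ hcs hs δ hδ => ?_⟩
    have hθ : 0 < η / (8 * D) := by positivity
    have hθ' : η / (8 * D) < η / (2 * D) := by
      apply div_lt_div_of_pos_left hη (by positivity)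
      linarith
    have hs' : ∀ ξ : ℝ, 2 * (η / (8 * D)) < ξ → ψ ξ = 0 := by
      intro ξ hξ
      refine hs ξ ?_
      have e : η / 4 / D = 2 * (η / (8 * D)) := by field_simp; norm_num
      rw [e]
      exact hξ
    obtain ⟨T₁, hT₁, h⟩ := Pool.Agent.R461.HM.limit_form hθ.le hθ' hψ hcs hs' hk δ hδ
    obtain ⟨T₂, h'⟩ := H D hD
    refine ⟨max T₁ T₂, fun T hT u u' d r β hw => ?_⟩
    have hT2 := (le_max_right T₁ T₂).trans hT
    obtain ⟨-, h3⟩ := h' T hT2 u u' d r β hw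
    obtain ⟨h1, h2⟩ := h T ((le_max_left _ _).trans hT) _ h3
    have e : (fun v : ℝ => phi ψ v * shifted k (gp F a) β T u u' d r v) =
        fun v : ℝ => W182.KO.P ψ (v * I) *
          Pool.Agent.R461.HM.Qn k (Pool.Agent.R461.HM.unif (pset u u' d r).card
            (fun j => gp F a (Pool.Agent.N12.PH.enum (pset u u' d r) j) + β)) v T := by
      funext v
      rw [phi_eq]
      unfold shifted Pool.Agent.R461.HM.Qn
      rw [Pool.Agent.R461.HM.integral_unif]
      rw [← Pool.Agent.N12.PH.sum_enum (pset u u' d r) (fun p : ℕ =>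
        riemannZeta (1 / 2 + I * v / Real.log T + I * ((gp F a p + β : ℝ) : ℂ)) ^ k *
          riemannZeta (1 / 2 + I * v / Real.log T - I * ((gp F a p + β : ℝ) : ℂ)) ^ k)]
    unfold Close
    rw [e]
    exact ⟨h1, h2⟩
  refine ⟨main, fun α hα => ?_⟩
  obtain ⟨κ, η, hκ, hη, h⟩ := main {c} (fun _ => α) (Finset.mem_singleton_self c)
    (fun x hx => (Finset.mem_singleton.1 hx).le) hα
  refine ⟨η / (c + 1), by positivity, fun k hk ψ hψ hcs hs d r hd hr ε hε hε1 δ hδ => ?_⟩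
  obtain ⟨T₀, h⟩ := h k hk (c + 1) (by linarith) ψ hψ hcs hs δ hδ
  obtain ⟨u₁, hu₁⟩ := Pool.Agent.N12.PH.win_monomial c hc α hα κ hκ d r hd hr ε hε hε1
  have hlim : Filter.Tendsto (fun x : ℝ => α / 2 * x ^ c) Filter.atTop Filter.atTop :=
    (tendsto_rpow_atTop hc).const_mul_atTop (by positivity)
  obtain ⟨x₀, hx₀⟩ := Filter.eventually_atTop.1 (hlim.eventually_ge_atTop T₀)
  refine ⟨max u₁ ⌈x₀⌉₊, fun u v hu hv1 hv2 T hT1 hT2 => ?_⟩
  have huv : (u : ℝ) ≤ v := by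
    have : 0 ≤ ε * (u : ℝ) := by positivity
    linarith
  have hT : T₀ ≤ T := by
    have h3 := hx₀ u ((Nat.le_ceil x₀).trans (by exact_mod_cast (le_max_right _ _).trans hu))
    have h4 : (u : ℝ) ^ c ≤ (v : ℝ) ^ c := Real.rpow_le_rpow (Nat.cast_nonneg u) huv hc.le
    nlinarith
  have hgp : gp {c} (fun _ => α) = fun t => α * t ^ c := by
    funext t
    unfold gp
    rw [Finset.sum_singleton]
  have h5 := h T hT u v d r 0 (hu₁ u v ((le_max_left _ _).trans hu) hv1 hv2 T hT1 hT2)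
  rw [hgp] at h5
  exact h5

end

end Pool.Agent.Results.MP_56b8f5_nt.ShiftedMomentsAtPrimes
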