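import Pool.Agent.N879.PU.All

set_option autoImplicit false

/-!
# Products of `2k` values of zeta on the critical line: shifts of size `U`, averages of length `H`

For every `k` the product `∏_j ζ(1/2 + i(t + a_j)) ζ(1/2 - i(t + b_j))` of `2k` values (`2k = 8` in the problem) is
integrated over `t ∈ [T, T + H]`. For almost all shift vectors `(a, b) ∈ [0, U]^(2k)` the integral is
`H ζ_{(a,b)}(1/2)`, the diagonal term of the recipe of Conrey, Farmer, Keating, Rubinstein and Snaith, as soon as `H U` is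
larger than `T` by a power of `log T`, with an error that saves a power of `H U / T`. The values of `t` for which the
second moment of zeta over `[t, t + U]` is too large are left out; there are none if `U ≥ T^(1/2)`. Unconditional.
-/

namespace Pool.Agent.Results.MP_56b8f5_nt.TwoScales

open Complex MeasureTheory Set

noncomputable section

variable {k : ℕ}

/-- The divisor function `τ_l(n)`: the sum over `d_1 d_2 ⋯ d_k = n` of `∏ j, d_j ^ l_j`. -/
def tau (l : Fin k → ℂ) (n : ℕ) : ℂ :=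
  ∑ d ∈ Nat.finMulAntidiag k n, ∏ j, (d j : ℂ) ^ (l j)

/-- The Euler factor of `F(a, b)` at the prime `p`. -/
def localFactor (a b : Fin k → ℝ) (p : ℕ) : ℂ :=
  (∏ j, ∏ l, (1 - (p : ℂ) ^ (-(1 + I * a j - I * b l)))) *
    ∑' m : ℕ, tau (fun j => I * b j) (p ^ m) * tau (fun j => -(I * a j)) (p ^ m) * (p : ℂ) ^ (-(m : ℂ))

/-- The arithmetic factor `F(a, b)`, an Euler product. -/
def arithF (a b : Fin k → ℝ) : ℂ := ∏' p : Nat.Primes, localFactor a b p

/-- The diagonal term `ζ_{(a, b)}(1/2) = F(a, b) ∏_{j,l} ζ(1 + i a_j - i b_l)` of the recipe. -/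
def diagonal (a b : Fin k → ℝ) : ℂ :=
  arithF a b * ∏ j, ∏ l, riemannZeta (1 + I * a j - I * b l)

/-- The product `∏_j ζ(1/2 + i(t + a_j)) ζ(1/2 - i(t + b_j))` for `γ = (a, b)`, indexed by `Fin k ⊕ Fin k`. -/
def Z (γ : Fin k ⊕ Fin k → ℝ) (t : ℝ) : ℂ :=
  ∏ j : Fin k, riemannZeta (1 / 2 + I * (t + γ (Sum.inl j))) *
    riemannZeta (1 / 2 - I * (t + γ (Sum.inr j)))

/-- The regular points `t`: the mean value of `|ζ(1/2 + iu)|²` over `t ≤ u ≤ t + U` is at most `V`. -/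
def regular (U V : ℝ) : Set ℝ :=
  {t | ∫ u in t..(t + U), ‖riemannZeta (1 / 2 + I * u)‖ ^ 2 ≤ U * V}

open Pool.Agent.TH612.CF in
lemma diagonal_eq (a b : Fin k → ℝ) :
    diagonal a b = zab (fun j => (a j : ℂ)) (fun j => (b j : ℂ)) := by
  unfold diagonal zab arithF FH
  congr 1
  refine tprod_congr fun p => ?_
  unfold localFactor lh lt
  congr 1
  refine tsum_congr fun m => ?_
  have e : ((p : ℕ) : ℂ) ^ (-(m : ℂ)) = (((p : ℕ) : ℂ) ^ m)⁻¹ := by
    rw [Complex.cpow_neg, Complex.cpow_natCast]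
  rw [e]
  rfl

lemma Z_eq (γ : Fin k ⊕ Fin k → ℝ) (t : ℝ) :
    Z γ t = ∏ i, Pool.Agent.N879.PU.fs Pool.Agent.TH612.GS.z i (t + γ i) := by
  rw [Pool.Agent.N879.PU.fs_prod]
  have h := Pool.Agent.TH612.GS.Zg_fz γ t
  rw [← h]
  rfl

/-- For every `k` there are `δ > 0`, `C₀` and `T₀` such that the following holds for all `T ≥ T₀` and all `H, U ≤ T`
with `H U ≥ T (log T)^C₀`. Put `λ = H U / T`.
(1) The points of `[T, T + H]` at which the mean value of `|ζ|²` over `[t, t + U]` exceeds `λ^(3δ)` form a set of measure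
at most `H λ^(-δ)`. (2) There are none if `U ≥ T^(1/2)`.
(3) For all shift vectors `γ = (a, b) ∈ [0, U]^(2k)` outside a set of measure at most `U^(2k) λ^(-δ)` the integral of
`Z γ t` over the remaining `t` is `H` times `diagonal a b`, with an error of at most `H λ^(-δ)`. -/
theorem result (k : ℕ) : ∃ δ C₀ T₀ : ℝ, 0 < δ ∧ ∀ T H U : ℝ, T₀ ≤ T → 0 < H → H ≤ T → U ≤ T →
    T * Real.log T ^ C₀ ≤ H * U →
    volume (Icc T (T + H) \ regular U ((H * U / T) ^ (3 * δ))) ≤ ENNReal.ofReal (H * (H * U / T) ^ (-δ)) ∧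
    (T ^ (1 / 2 : ℝ) ≤ U → Icc T (T + H) ⊆ regular U ((H * U / T) ^ (3 * δ))) ∧
    volume {γ : Fin k ⊕ Fin k → ℝ | (∀ i, 0 ≤ γ i ∧ γ i ≤ U) ∧ H * (H * U / T) ^ (-δ) <
      ‖(∫ t in regular U ((H * U / T) ^ (3 * δ)) ∩ Icc T (T + H), Z γ t) -
        H * diagonal (fun j => γ (Sum.inl j)) (fun j => γ (Sum.inr j))‖} ≤
      ENNReal.ofReal (U ^ (2 * k) * (H * U / T) ^ (-δ)) := by
  obtain ⟨δ, C₀, T₀, hδ, h⟩ := Pool.Agent.N879.PU.main_all k
  refine ⟨δ, C₀, T₀, hδ, fun T H U hT hH hHT hUT hHU => ?_⟩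
  obtain ⟨h1, h2, h3⟩ := h T H U hT hH hHT hUT hHU
  refine ⟨h1, h2, ?_⟩
  rw [Pool.Agent.TH612.GS.vol_cube (T := U) fun γ hγ => hγ.1]
  refine (measure_mono ?_).trans h3
  rintro γ ⟨_, hγ⟩
  simp only [diagonal_eq, Z_eq] at hγ
  exact hγ

end

end Pool.Agent.Results.MP_56b8f5_nt.TwoScales
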